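import Pool.Agent.H629.GC.Stm

set_option autoImplicit false

open MeasureTheory ProbabilityTheory Set Filter
open scoped ENNReal Topology

/-!
# G1: moments of the limit of a martingale
-/

namespace Pool.Agent.H670.GC.G1

open Pool.Agent.H629.GC

theorem real_tangent {a b p : ℝ} (ha : 0 < a) (hb : 0 ≤ b) (hp : 1 ≤ p) :
    a ^ p + p * (a ^ (p - 1) * b) ≤ b ^ p + p * a ^ p := by
  have h1 := one_add_mul_self_le_rpow_one_add (s := b / a - 1) (by
    have : 0 ≤ b / a := by positivity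
    linarith) hp
  rw [show 1 + (b / a - 1) = b / a by ring, Real.div_rpow hb ha.le] at h1
  have h2 : 0 < a ^ p := Real.rpow_pos_of_pos ha p
  have h3 : a ^ (p - 1) = a ^ p / a := Real.rpow_sub_one ha.ne' p
  rw [le_div_iff₀ h2] at h1
  rw [h3]
  have h4 : (1 + p * (b / a - 1)) * a ^ p = a ^ p + p * (a ^ p / a * b) - p * a ^ p := by
    field_simp
    ring
  rw [h4] at h1
  linarith

theorem tangent {p : ℝ} (hp : 1 ≤ p) (x y : ℝ≥0∞) (hx : x ≠ ∞) :
    x ^ p + ENNReal.ofReal p * (x ^ (p - 1) * y) ≤ y ^ p + ENNReal.ofReal p * x ^ p := by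
  have hp0 : 0 < p := by linarith
  rcases eq_or_ne y ∞ with rfl | hy
  · rw [ENNReal.top_rpow_of_pos hp0, top_add]
    exact le_top
  rcases eq_or_ne x 0 with rfl | hx0
  · rcases hp.eq_or_lt with rfl | hp1
    · simp
    · rw [ENNReal.zero_rpow_of_pos hp0, ENNReal.zero_rpow_of_pos (by linarith)]
      simp
  have ha : 0 < x.toReal := ENNReal.toReal_pos hx0 hx
  have hb : 0 ≤ y.toReal := ENNReal.toReal_nonneg
  have ex : x = ENNReal.ofReal x.toReal := (ENNReal.ofReal_toReal hx).symm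
  have ey : y = ENNReal.ofReal y.toReal := (ENNReal.ofReal_toReal hy).symm
  rw [ex, ey, ENNReal.ofReal_rpow_of_pos ha, ENNReal.ofReal_rpow_of_pos ha,
    ENNReal.ofReal_rpow_of_nonneg hb hp0.le, ← ENNReal.ofReal_mul (by positivity),
    ← ENNReal.ofReal_mul hp0.le, ← ENNReal.ofReal_mul hp0.le,
    ← ENNReal.ofReal_add (by positivity) (by positivity),
    ← ENNReal.ofReal_add (by positivity) (by positivity)]
  exact ENNReal.ofReal_le_ofReal (real_tangent ha hb hp)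

theorem rpow_sub_one_mul {p : ℝ} (hp : 1 ≤ p) (x : ℝ≥0∞) (hx : x ≠ ∞) :
    x ^ (p - 1) * x = x ^ p := by
  rcases eq_or_ne x 0 with rfl | hx0
  · rw [mul_zero, ENNReal.zero_rpow_of_pos (by linarith)]
  · have h := ENNReal.rpow_add (p - 1) 1 hx0 hx
    rw [ENNReal.rpow_one, sub_add_cancel] at h
    exact h.symm

theorem trunc_le {r : ℝ} (hr : 1 < r) {k : ℕ} (hk : 1 ≤ k) (x : ℝ≥0∞) :
    x ≤ min x k + ((k : ℝ≥0∞)⁻¹) ^ (r - 1) * x ^ r := by
  rcases le_total x k with h | h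
  · rw [min_eq_left h]
    exact le_self_add
  · refine le_trans ?_ le_add_self
    have hk0 : (k : ℝ≥0∞) ≠ 0 := by exact_mod_cast (by omega : k ≠ 0)
    have hkt : (k : ℝ≥0∞) ≠ ∞ := ENNReal.natCast_ne_top k
    rcases eq_or_ne x ∞ with rfl | hx
    · rw [ENNReal.top_rpow_of_pos (by linarith), ENNReal.mul_top]
      have : 0 < ((k : ℝ≥0∞)⁻¹) ^ (r - 1) :=
        ENNReal.rpow_pos (ENNReal.inv_pos.2 hkt) (ENNReal.inv_ne_top.2 hk0)
      exact this.ne'
    · have e : ((k : ℝ≥0∞)⁻¹) ^ (r - 1) * x ^ r = ((k : ℝ≥0∞)⁻¹ * x) ^ (r - 1) * x := by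
        rw [ENNReal.mul_rpow_of_nonneg _ _ (by linarith), mul_assoc,
          rpow_sub_one_mul hr.le x hx]
      rw [e]
      have h1 : 1 ≤ (k : ℝ≥0∞)⁻¹ * x := by
        rw [← ENNReal.inv_mul_cancel hk0 hkt]
        gcongr
      have h2 : 1 ≤ ((k : ℝ≥0∞)⁻¹ * x) ^ (r - 1) := ENNReal.one_le_rpow h1 (by linarith)
      calc x = 1 * x := (one_mul x).symm
        _ ≤ _ := by gcongr

theorem tendsto_delta {r : ℝ} (hr : 1 < r) :
    Tendsto (fun k : ℕ => ((k : ℝ≥0∞)⁻¹) ^ (r - 1)) atTop (𝓝 0) := by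
  have h := ENNReal.tendsto_inv_nat_nhds_zero.ennrpow_const (r - 1)
  rwa [ENNReal.zero_rpow_of_pos (by linarith)] at h

variable {Ω : Type} [MeasurableSpace Ω] {P : Measure Ω} [IsProbabilityMeasure P]
  {M : ℕ → Ω → ℝ≥0∞} {M' : Ω → ℝ≥0∞}

theorem step1 (hM : ∀ n, Measurable (M n))
    (hlim : ∀ᵐ ω ∂P, Tendsto (fun n => M n ω) atTop (𝓝 (M' ω)))
    (hmart : ∀ n n', n ≤ n' → ∀ g : ℝ≥0∞ → ℝ≥0∞, Measurable g →
      ∫⁻ ω, g (M n ω) * M n' ω ∂P = ∫⁻ ω, g (M n ω) * M n ω ∂P)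
    {r : ℝ} {C : ℝ≥0∞} (hr : 1 < r) (hC : C ≠ ∞) (hb : ∀ n, ∫⁻ ω, M n ω ^ r ∂P ≤ C)
    {g : ℝ≥0∞ → ℝ≥0∞} (hg : Measurable g) {H : ℝ≥0∞} (hH : H ≠ ∞) (hgH : ∀ x, g x ≤ H) (n : ℕ) :
    ∫⁻ ω, g (M n ω) * M n ω ∂P ≤ ∫⁻ ω, g (M n ω) * M' ω ∂P := by
  have hA : ∀ k : ℕ, 1 ≤ k → ∫⁻ ω, g (M n ω) * M n ω ∂P ≤
      ∫⁻ ω, g (M n ω) * M' ω ∂P + H * (((k : ℝ≥0∞)⁻¹) ^ (r - 1) * C) := by
    intro k hk
    have h1 : ∀ n', n ≤ n' → ∫⁻ ω, g (M n ω) * M n ω ∂P ≤
        ∫⁻ ω, g (M n ω) * min (M n' ω) k ∂P + H * (((k : ℝ≥0∞)⁻¹) ^ (r - 1) * C) := by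
      intro n' hn'
      rw [← hmart n n' hn' g hg]
      calc ∫⁻ ω, g (M n ω) * M n' ω ∂P
          ≤ ∫⁻ ω, g (M n ω) * min (M n' ω) k +
              H * (((k : ℝ≥0∞)⁻¹) ^ (r - 1) * M n' ω ^ r) ∂P := by
            refine lintegral_mono fun ω => ?_
            calc g (M n ω) * M n' ω ≤ g (M n ω) * (min (M n' ω) k +
                  ((k : ℝ≥0∞)⁻¹) ^ (r - 1) * M n' ω ^ r) := by
                  gcongr
                  exact trunc_le hr hk _
              _ = g (M n ω) * min (M n' ω) k +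
                  g (M n ω) * (((k : ℝ≥0∞)⁻¹) ^ (r - 1) * M n' ω ^ r) := mul_add _ _ _
              _ ≤ _ := by
                  gcongr
                  exact hgH _
        _ = ∫⁻ ω, g (M n ω) * min (M n' ω) k ∂P +
              H * (((k : ℝ≥0∞)⁻¹) ^ (r - 1) * ∫⁻ ω, M n' ω ^ r ∂P) := by
            have m1 : Measurable fun ω => g (M n ω) * min (M n' ω) k :=
              (hg.comp (hM n)).mul ((hM n').min measurable_const)
            have m2 : Measurable fun ω => M n' ω ^ r := (hM n').pow_const r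
            rw [lintegral_add_left m1, lintegral_const_mul _ (m2.const_mul _),
              lintegral_const_mul _ m2]
        _ ≤ _ := by
            gcongr
            exact hb n'
    have h2 : Tendsto (fun n' => ∫⁻ ω, g (M n ω) * min (M n' ω) k ∂P) atTop
        (𝓝 (∫⁻ ω, g (M n ω) * min (M' ω) k ∂P)) := by
      refine tendsto_lintegral_of_dominated_convergence (fun _ => H * k)
        (fun n' => (hg.comp (hM n)).mul ((hM n').min measurable_const)) ?_ ?_ ?_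
      · intro n'
        refine Eventually.of_forall fun ω => ?_
        exact mul_le_mul' (hgH _) (min_le_right _ _)
      · rw [lintegral_const, measure_univ, mul_one]
        exact ENNReal.mul_ne_top hH (ENNReal.natCast_ne_top k)
      · filter_upwards [hlim] with ω hω
        refine ENNReal.Tendsto.const_mul (hω.min tendsto_const_nhds) (Or.inr ?_)
        exact ne_top_of_le_ne_top hH (hgH _)
    have h3 : Tendsto (fun n' => ∫⁻ ω, g (M n ω) * min (M n' ω) k ∂P +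
        H * (((k : ℝ≥0∞)⁻¹) ^ (r - 1) * C)) atTop
        (𝓝 (∫⁻ ω, g (M n ω) * min (M' ω) k ∂P + H * (((k : ℝ≥0∞)⁻¹) ^ (r - 1) * C))) :=
      h2.add tendsto_const_nhds
    refine (ge_of_tendsto h3 ?_).trans ?_
    · filter_upwards [eventually_ge_atTop n] with n' hn'
      exact h1 n' hn'
    · gcongr
      exact min_le_left _ _
  have h4 : Tendsto (fun k : ℕ => ∫⁻ ω, g (M n ω) * M' ω ∂P +
      H * (((k : ℝ≥0∞)⁻¹) ^ (r - 1) * C)) atTop
      (𝓝 (∫⁻ ω, g (M n ω) * M' ω ∂P + H * (0 * C))) := by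
    refine tendsto_const_nhds.add ?_
    refine ENNReal.Tendsto.const_mul ?_ (Or.inr hH)
    exact ENNReal.Tendsto.mul_const (tendsto_delta hr) (Or.inr hC)
  rw [zero_mul, mul_zero, add_zero] at h4
  refine ge_of_tendsto h4 ?_
  filter_upwards [eventually_ge_atTop 1] with k hk
  exact hA k hk

theorem step2 (hM : ∀ n, Measurable (M n))
    (hlim : ∀ᵐ ω ∂P, Tendsto (fun n => M n ω) atTop (𝓝 (M' ω)))
    (hmart : ∀ n n', n ≤ n' → ∀ g : ℝ≥0∞ → ℝ≥0∞, Measurable g →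
      ∫⁻ ω, g (M n ω) * M n' ω ∂P = ∫⁻ ω, g (M n ω) * M n ω ∂P)
    {r : ℝ} {C : ℝ≥0∞} (hr : 1 < r) (hC : C ≠ ∞) (hb : ∀ n, ∫⁻ ω, M n ω ^ r ∂P ≤ C)
    {p : ℝ} (hp : 1 ≤ p) (n k : ℕ) :
    ∫⁻ ω, min (M n ω) k ^ p ∂P ≤ ∫⁻ ω, M' ω ^ p ∂P := by
  have hM' : AEMeasurable M' P :=
    aemeasurable_of_tendsto_metrizable_ae' (fun n => (hM n).aemeasurable) hlim
  have hkt : (k : ℝ≥0∞) ≠ ∞ := ENNReal.natCast_ne_top k
  have hmin : ∀ ω, min (M n ω) k ≠ ∞ := fun ω => ne_top_of_le_ne_top hkt (min_le_right _ _)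
  have mφ : Measurable fun ω => min (M n ω) (k : ℝ≥0∞) := (hM n).min measurable_const
  have mφp : Measurable fun ω => min (M n ω) (k : ℝ≥0∞) ^ p := mφ.pow_const p
  have mφp1 : Measurable fun ω => min (M n ω) (k : ℝ≥0∞) ^ (p - 1) := mφ.pow_const (p - 1)
  have h1 : ∫⁻ ω, min (M n ω) k ^ p ∂P ≤ ∫⁻ ω, min (M n ω) k ^ (p - 1) * M' ω ∂P := by
    have h := step1 hM hlim hmart hr hC hb (g := fun x => min x (k : ℝ≥0∞) ^ (p - 1))
      ((measurable_id.min measurable_const).pow_const _) (H := (k : ℝ≥0∞) ^ (p - 1))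
      (ENNReal.rpow_ne_top_of_nonneg (by linarith) hkt)
      (fun x => ENNReal.rpow_le_rpow (min_le_right _ _) (by linarith)) n
    refine le_trans ?_ h
    refine lintegral_mono fun ω => ?_
    show min (M n ω) (k : ℝ≥0∞) ^ p ≤ min (M n ω) (k : ℝ≥0∞) ^ (p - 1) * M n ω
    rw [← rpow_sub_one_mul hp _ (hmin ω)]
    gcongr
    exact min_le_left _ _
  have h2 : ∫⁻ ω, min (M n ω) k ^ p ∂P + ENNReal.ofReal p *
      ∫⁻ ω, min (M n ω) k ^ (p - 1) * M' ω ∂P ≤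
      ∫⁻ ω, M' ω ^ p ∂P + ENNReal.ofReal p * ∫⁻ ω, min (M n ω) k ^ p ∂P := by
    rw [← lintegral_const_mul' _ _ ENNReal.ofReal_ne_top,
      ← lintegral_const_mul' _ _ ENNReal.ofReal_ne_top, ← lintegral_add_left mφp,
      ← lintegral_add_right _ (mφp.const_mul _)]
    exact lintegral_mono fun ω => tangent hp _ _ (hmin ω)
  have hfin : ENNReal.ofReal p * ∫⁻ ω, min (M n ω) k ^ p ∂P ≠ ∞ := by
    refine ENNReal.mul_ne_top ENNReal.ofReal_ne_top ?_
    have h3 : ∫⁻ ω, min (M n ω) k ^ p ∂P ≤ (k : ℝ≥0∞) ^ p := by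
      calc ∫⁻ ω, min (M n ω) k ^ p ∂P ≤ ∫⁻ _, (k : ℝ≥0∞) ^ p ∂P := by
            refine lintegral_mono fun ω => ?_
            exact ENNReal.rpow_le_rpow (min_le_right _ _) (by linarith)
        _ = (k : ℝ≥0∞) ^ p := by rw [lintegral_const, measure_univ, mul_one]
    exact ne_top_of_le_ne_top (ENNReal.rpow_ne_top_of_nonneg (by linarith) hkt) h3
  have h4 : ∫⁻ ω, min (M n ω) k ^ p ∂P + ENNReal.ofReal p * ∫⁻ ω, min (M n ω) k ^ p ∂P ≤
      ∫⁻ ω, M' ω ^ p ∂P + ENNReal.ofReal p * ∫⁻ ω, min (M n ω) k ^ p ∂P := by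
    refine le_trans ?_ h2
    gcongr
  exact (ENNReal.add_le_add_iff_right hfin).1 h4

/-- **G1** -/
theorem t_G1 : S_G1 := by
  intro Ω _ P _ M M' hM hlim hmart r C hr hC hb p hp n
  have hp0 : 0 < p := by linarith
  have h1 : Tendsto (fun k : ℕ => ∫⁻ ω, min (M n ω) k ^ p ∂P) atTop
      (𝓝 (∫⁻ ω, M n ω ^ p ∂P)) := by
    refine lintegral_tendsto_of_tendsto_of_monotone
      (fun k => (((hM n).min measurable_const).pow_const p).aemeasurable) ?_ ?_
    · refine Eventually.of_forall fun ω => ?_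
      intro k k' hkk
      refine ENNReal.rpow_le_rpow ?_ hp0.le
      exact min_le_min_left _ (by exact_mod_cast hkk)
    · refine Eventually.of_forall fun ω => ?_
      have h2 : Tendsto (fun k : ℕ => min (M n ω) (k : ℝ≥0∞)) atTop (𝓝 (min (M n ω) ∞)) :=
        tendsto_const_nhds.min ENNReal.tendsto_nat_nhds_top
      rw [min_eq_left le_top] at h2
      exact h2.ennrpow_const p
  exact le_of_tendsto' h1 fun k => step2 hM hlim hmart hr hC hb hp n k

end Pool.Agent.H670.GC.G1
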